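import Pool.Agent.H904.MY.Dens

set_option autoImplicit false

/-!
# Primitive symplectic torus quotients with `b_2 ≥ 5`: Lagrangian fibrations are dense

Let `X = V / Γ` be a primitive symplectic variety that is the quotient of a complex torus by a finite
group. Then `b_2(X) = h^{1,1}(X) + 2`. The deformations of `X` considered here are the quotients
`X_φ = V / φ Γ φ⁻¹` for the real linear automorphisms `φ` of `V` which commute with the linear parts of
`Γ`.

The theorem says that `h^{1,1}(X) ≥ 3` holds if and only if some `X_φ` has at least three Lagrangian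
fibrations, and if and only if the `X_φ` which are projective and have infinitely many Lagrangian
fibrations are dense.

`IsPrimitiveSymplectic` is defined in `Pool.Agent.W594.SYZ.Defs2`; `IsLagrangianFibration` in
`Pool.Agent.W594.SYZ.TQDefs`; `H11` in `Pool.Agent.R189.SY.BBFDefs`; `IsProj` in
`Pool.Agent.R189.SY.LagDefs`; `Commutes` and `deform` in `Pool.Agent.R189.WS.Conj`.

The proof: an invariant alternating form `E` is `E(x, y) = Im s(x, B y)` with the symplectic form `s`
and `B = J - c`, `J` conjugate linear; `q(E)` is the scalar `- B (J + c̄)`. If `E, E'` are rational, the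
operator `B'⁻¹ B` is rational and satisfies a quadratic equation with the coefficients `q(E, E')/q(E')`
and `q(E)/q(E')`, so these are rational. So `q` is, up to a factor, a rational form, and Meyer's theorem
gives an isotropic class. A deformation in which two isotropic classes are of type `(1,1)` has two
fibrations; a further rational class, orthogonal to these two and of negative square, is made of type
`(1,1)` by a boost `1 - τ J`, which gives a third isotropic class of type `(1,1)` and then infinitely
many. Finally isogeny classes are dense.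
-/

namespace Pool.Agent.Results.MP_e4ecdb_ag.InfinitelyManyFibrations

open Pool.Agent.W594.SYZ2 Pool.Agent.TH735.AQ Pool.Agent.R189.SY Pool.Agent.R189

/-- The set of the Lagrangian fibrations `f : X → B` of `X = V / Γ` onto torus quotients
`B = ℂ^n / Δ`, up to isomorphisms of the bases: the fibration given by the linear map `π` is
represented by the complex subspace `ker π` of `V`, the tangent space of the general fibre. -/
def lagFibrations {V : Type*} [NormedAddCommGroup V] [NormedSpace ℂ V]
    (Γ : Subgroup (V ≃ᵃ[ℂ] V)) : Set (Submodule ℂ V) :=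
  {K | ∃ (n : ℕ) (Δ : Subgroup ((Fin n → ℂ) ≃ᵃ[ℂ] (Fin n → ℂ)))
    (π : V →ₗ[ℂ] (Fin n → ℂ)), IsLagrangianFibration Γ Δ π ∧ LinearMap.ker π = K}

theorem lagFibrations_eq {V : Type*} [NormedAddCommGroup V] [NormedSpace ℂ V]
    [FiniteDimensional ℂ V] {Γ : Subgroup (V ≃ᵃ[ℂ] V)} (hΓ : IsPrimitiveSymplectic Γ) :
    lagFibrations Γ = fibrations Γ := by
  ext K
  constructor
  · rintro ⟨n, Δ, π, hf, rfl⟩
    have hrn := π.finrank_range_add_finrank_ker
    have hp := hf.dim_pos
    have hd := hf.dim
    rw [LinearMap.range_eq_top.2 hf.surj, finrank_top, Module.finrank_fin_fun] at hrn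
    rw [Module.finrank_fin_fun] at hp hd
    refine ⟨?_, ?_, n, Δ, π, ⟨hf.surj, hf.maps, hf.onto, hf.base⟩, rfl⟩
    · intro h
      rw [h, finrank_bot] at hrn
      omega
    · intro h
      rw [h, finrank_top] at hrn
      omega
  · rintro ⟨h0, h1, n, Δ, π, hf, rfl⟩
    have hrn := π.finrank_range_add_finrank_ker
    rw [LinearMap.range_eq_top.2 hf.surj, finrank_top, Module.finrank_fin_fun] at hrn
    have h2 := Submodule.finrank_lt h1
    have h3 : 0 < Module.finrank ℂ (LinearMap.ker π) := by
      rw [Nat.pos_iff_ne_zero]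
      intro e
      exact h0 (Submodule.finrank_eq_zero.1 e)
    exact ⟨n, Δ, π, (lagr_of_fib hΓ hf (by omega) (by omega)).2.1, rfl⟩

/-- Let `X = V / Γ`, `dim X > 0`, be a primitive symplectic torus quotient. Then `h^{1,1}(X) ≥ 3`
(that is, `b_2(X) ≥ 5`) holds if and only if some deformation `X_φ` has at least three Lagrangian
fibrations, and if and only if for each `φ` which commutes with the linear parts of `Γ` there are `φ'`
arbitrarily close to `φ` such that `X_φ'` is projective and has infinitely many Lagrangian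
fibrations. -/
theorem result {V : Type*} [NormedAddCommGroup V] [NormedSpace ℂ V] [FiniteDimensional ℂ V]
    [Nontrivial V] (Γ : Subgroup (V ≃ᵃ[ℂ] V)) (hΓ : IsPrimitiveSymplectic Γ) :
    List.TFAE [
      3 ≤ Module.finrank ℝ (H11 Γ),
      ∃ φ : V ≃L[ℝ] V, WS2.Commutes Γ φ ∧ 3 ≤ (lagFibrations (WS2.deform Γ φ)).encard,
      ∀ φ : V ≃L[ℝ] V, WS2.Commutes Γ φ → ∀ ε : ℝ, 0 < ε → ∃ φ' : V ≃L[ℝ] V,
        WS2.Commutes Γ φ' ∧ ‖(φ' : V →L[ℝ] V) - φ‖ < ε ∧ IsProj (WS2.deform Γ φ') ∧
        (lagFibrations (WS2.deform Γ φ')).Infinite] := by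
  simp only [WS2.deform_eq]
  have h := Pool.Agent.H904.MY.main hΓ
  have e : ∀ φ : V ≃L[ℝ] V, WS.Commutes Γ φ →
      lagFibrations (WS.deform Γ φ) = fibrations (WS.deform Γ φ) := fun φ hφ =>
    lagFibrations_eq (WS.prim_deform hΓ hφ)
  tfae_have 1 → 3 := by
    intro h0 φ hφ ε hε
    have h02 := (h.out 0 2).1 h0
    obtain ⟨φ', h1, h2, h3, h4⟩ := h02 φ hφ ε hε
    exact ⟨φ', h1, h2, h3, by rw [e φ' h1]; exact h4⟩
  tfae_have 3 → 2 := by
    intro h0
    obtain ⟨φ', h1, -, -, h2⟩ := h0 (ContinuousLinearEquiv.refl ℝ V) (fun γ hγ v => rfl) 1 one_pos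
    refine ⟨φ', h1, ?_⟩
    rw [h2.encard_eq]
    exact le_top
  tfae_have 2 → 1 := by
    rintro ⟨φ, hφ, h3⟩
    rw [e φ hφ] at h3
    have h01 := (h.out 0 1).2
    exact h01 ⟨φ, hφ, h3⟩
  tfae_finish

end Pool.Agent.Results.MP_e4ecdb_ag.InfinitelyManyFibrations
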