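import Pool.Agent.H904.TW.Den2
import Pool.Agent.H904.TW.Ex

set_option autoImplicit false

/-!
# Lagrangian fibrations in the twistor families of torus quotients

Let `X = V / Γ` be a primitive symplectic variety that is the quotient of a complex torus by a finite
group. Each Kähler class `K` on `X` is the class of a flat hyperkähler metric, so it gives a twistor
family: `X_u`, for `u` in the unit sphere, is the quotient `X` with the complex structure
`I_u = u₀ I + u₁ N + u₂ I N`. Almost all `X_u` are not projective.

The theorem says that for all Kähler classes the following holds: the set of the `u` such that `X_u` has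
a Lagrangian fibration is countable; it is dense in the sphere if there is a class `E ≠ 0` in
`H²(X, ℚ)` with `q_X(E) = 0`, in particular if `h^{1,1}(X) ≥ 3` (`b_2(X) ≥ 5`); and it is empty if there
is no such class `E`.

`IsPrimitiveSymplectic` and `IsForm` are defined in `Pool.Agent.W594.SYZ.Defs2`; `IsHermitian`,
`IsPositiveForm` and `IsLagrangianFibration` in `Pool.Agent.W594.SYZ.TQDefs`; `H11` in
`Pool.Agent.R189.SY.BBFDefs`; `deform`, `IsClass` and `Isotropic` in `Pool.Agent.R189.WS.Conj`;
`IsHyperkahler`, `twi` and `IsModel` in `Pool.Agent.H904.TW.Defs`; `members` and `lagFibrations` in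
`Pool.Agent.H904.TW.Lag`.

The proof: a Kähler class and the symplectic form define a conjugate linear operator whose square is a
negative scalar, by the uniqueness of the symplectic form. A class is nef of type `(1,1)` on at most one
`X_u` (`TwistorFamilies`, MP_63735c_ag), which gives the countability. For the density, let `E` be
rational, isotropic and nef on `X_{u₁}`. The operator `T = I_{u₁} + I_{u₀}` satisfies
`T I_{u₀} = I_{u₁} T` and its square is a negative scalar, so that `E(T x, T y)` is nef and isotropic on
`X_{u₀}`. This real class is approximated by the rational isotropic classes `E(S x, S y)`, where `S` is a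
rational operator close to `T`, and by compactness the directions of these classes converge to `u₀`.
-/

namespace Pool.Agent.Results.MP_e4ecdb_ag.TwistorDensity

open Pool.Agent.W594.SYZ2 Pool.Agent.R189.SY Pool.Agent.R189 Pool.Agent.H904.TW

/-- Let `X = V / Γ`, `dim X > 0`, be a primitive symplectic torus quotient, and `K` a Kähler class
on `X`. There is a hyperkähler structure `(K, N)`, and for each hyperkähler structure `(K, N)`:
* the set `members Γ N` of the `u` for which `X_u` has a Lagrangian fibration is countable;
* the following are equivalent: there is `0 ≠ E ∈ H²(X, ℚ)` with `q_X(E) = 0`; the set `members Γ N` is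
  not empty; it is dense in the unit sphere;
* this is the case if `h^{1,1}(X) ≥ 3`. -/
theorem result {V : Type*} [NormedAddCommGroup V] [NormedSpace ℂ V] [FiniteDimensional ℂ V]
    [Nontrivial V] (Γ : Subgroup (V ≃ᵃ[ℂ] V)) (hΓ : IsPrimitiveSymplectic Γ) (K : V → V → ℂ)
    (hK : IsHermitian K) (hp : IsPositiveForm K)
    (hinv : ∀ γ ∈ Γ, ∀ v w, K (γ.linear v) (γ.linear w) = K v w) :
    (∃ N : V → V, IsHyperkahler Γ K N) ∧
    ∀ N : V → V, IsHyperkahler Γ K N →
      (members Γ N).Countable ∧
      List.TFAE [
        ∃ E : V → V → ℝ, WS2.IsClass Γ E ∧ WS2.Isotropic E,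
        (members Γ N).Nonempty,
        ∀ u : Fin 3 → ℝ, u 0 ^ 2 + u 1 ^ 2 + u 2 ^ 2 = 1 → ∀ ε : ℝ, 0 < ε →
          ∃ u' ∈ members Γ N, dist u' u < ε] ∧
      (3 ≤ Module.finrank ℝ (H11 Γ) →
        ∀ u : Fin 3 → ℝ, u 0 ^ 2 + u 1 ^ 2 + u 2 ^ 2 = 1 → ∀ ε : ℝ, 0 < ε →
          ∃ u' ∈ members Γ N, dist u' u < ε) := by
  refine ⟨exists_hyperkahler hΓ hK hp hinv, fun N h => ⟨members_countable hΓ h, ?_, ?_⟩⟩
  · tfae_have 1 → 3 := by
      rintro ⟨E, hE, h0⟩ u hu ε hε
      exact members_dense hΓ h (WS2.isClass_iff.1 hE) h0 hu hε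
    tfae_have 3 → 2 := by
      intro hd
      obtain ⟨u, hu, -⟩ := hd ![1, 0, 0] (by simp) 1 one_pos
      exact ⟨u, hu⟩
    tfae_have 2 → 1 := by
      rintro ⟨u, hu⟩
      obtain ⟨-, E, hE, h0, -⟩ := (mem_iff hΓ h u).1 hu
      exact ⟨E, WS2.isClass_iff.2 hE, h0⟩
    tfae_finish
  · intro h3 u hu ε hε
    obtain ⟨E, hE, h0⟩ := Pool.Agent.H904.MY.exists_isotropic_class hΓ h3
    exact members_dense hΓ h hE h0 hu hε

end Pool.Agent.Results.MP_e4ecdb_ag.TwistorDensity
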